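import Pool.Agent.Q16.Clon.Main

set_option autoImplicit false

namespace Pool.Agent.Results.MP_d8c2c9_al.Finiteness

open Pool.Agent.Q16.Clon

universe u₁ u₂ u₃ u₄

/-- For all finite modules `A` (over any ring `R`) and `B` (over any ring `S`) of coprime order,
there are only finitely many clonoids from `A` to `B`. -/
theorem result (R : Type u₁) (S : Type u₂) (A : Type u₃) (B : Type u₄) [Ring R] [Ring S]
    [AddCommGroup A] [Module R A] [AddCommGroup B] [Module S B] [Finite A] [Finite B]
    (hco : Nat.gcd (Nat.card A) (Nat.card B) = 1) :
    {C : Set (Op A B) | IsClonoid R S C}.Finite :=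
  main hco

end Pool.Agent.Results.MP_d8c2c9_al.Finiteness
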